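import Pool.Agent.R836.RD.Main

set_option autoImplicit false

/-!
# There is no Ramanujan-type congruence modulo 2 for 6-regular partitions (MP_72e75e_nt, Q1)

For all `A ≥ 1` and `B` the number `b_6 (A n + B)` of the partitions of `A n + B` without parts
divisible by 6 is odd for infinitely many `n`.

Method: described in `Results/MP_24de68_nt/NoEvenProgression`; modulo 2 the generating function is
`f_6 / f_1 = f_3 ^ 2 / f_1`.
-/

namespace Pool.Agent.Results.MP_72e75e_nt.NoCongruence

/-- the number of 6-regular partitions of `n` -/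
def b6 (n : ℕ) : ℕ :=
  ((Finset.univ : Finset (Nat.Partition n)).filter fun p => ∀ i ∈ p.parts, ¬ 6 ∣ i).card

theorem result (A B : ℕ) (hA : 1 ≤ A) : {n : ℕ | Odd (b6 (A * n + B))}.Infinite := by
  rw [Set.infinite_iff_exists_gt]
  intro N
  obtain ⟨n, hn, h1⟩ := Pool.Agent.R836.RD.full_Pb A B hA (N + 1)
  refine ⟨n, ?_, hn⟩
  rw [← Pool.Agent.R836.RD.part.2 (A * n + B)] at h1
  exact ZMod.natCast_eq_one_iff_odd.1 h1

end Pool.Agent.Results.MP_72e75e_nt.NoCongruence
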